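import Pool.Agent.N655.NSP.Flux
import Pool.Agent.N977.Q.Tw4
import Pool.Agent.N977.P.Stm3

/-!
Regularity of the solutions which are bounded in `H¹` (helper655).
-/

open MeasureTheory Set Filter Topology
open scoped ContDiff ComplexConjugate

namespace Pool.Agent.N655.NSP

open H459R3.NS Pool.Agent.N977.Q
open Pool.Agent.N977.S (LowE EE_leE)
open Pool.Agent.N977.K (SolK cmp)

variable {v : V → V}

theorem EE1_eq (v : V → V) : EE 1 v = Hn 1 0 v ^ 2 := by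
  rw [Hn_sq_un]
  unfold EE
  refine tsum_congr fun k => ?_
  by_cases hk : k = 0
  · subst hk
    rw [len_zero]
    unfold Pool.Agent.N977.Q.wt
    simp
  · unfold Pool.Agent.N977.Q.wt
    rw [if_neg hk, Real.rpow_one, Real.rpow_zero, mul_one]
    ring

theorem sum_le_EE1 (hv : SPV v) (F : Finset K3) : ∑ k ∈ F, len k ^ 2 * un v k ^ 2 ≤ EE 1 v := by
  unfold EE
  have h1 := (EE_summable hv 1).sum_le_tsum F fun k _ => by
    have := len_nonneg k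
    positivity
  simpa using h1

theorem four_two (n : ℕ) : (4 : ℝ) ^ n = (2 ^ n) ^ 2 := by
  rw [← pow_mul, mul_comm n 2, pow_mul]
  norm_num

theorem XX_one (hv : SPV v) (n : ℕ) : XX n 1 0 v ≤ EE 1 v / 4 ^ n := by
  have h2n : (0 : ℝ) < 2 ^ n := by positivity
  unfold XX
  rw [le_div_iff₀ (by positivity), Finset.sum_mul]
  refine (Finset.sum_le_sum fun k _ => ?_).trans (sum_le_EE1 hv (Bl n))
  rw [four_two]
  have : (len k / 2 ^ n) ^ (2 * 1) * len k ^ (2 * 0) * un v k ^ 2 * (2 ^ n) ^ 2 =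
      len k ^ 2 * un v k ^ 2 := by
    rw [mul_zero, pow_zero, mul_one, mul_one, div_pow]
    field_simp
  exact this.le

theorem ZZ_one (hv : SPV v) (n : ℕ) : ZZ n 0 0 v ≤ EE 1 v / 4 ^ n := by
  classical
  have h2n : (0 : ℝ) < 2 ^ n := by positivity
  rw [le_div_iff₀ (by positivity)]
  unfold ZZ EE
  rw [← tsum_mul_right]
  refine ((ZZ_summable hv (by norm_num)).mul_right _).tsum_le_tsum (fun k => ?_)
    (EE_summable hv 1)
  have hl := len_nonneg k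
  split_ifs with hk
  · rw [zero_mul]
    positivity
  · rw [mem_Bl, not_lt] at hk
    have hl0 : 0 < len k := by linarith
    rw [mul_zero, zero_add, pow_zero, mul_one, mul_one, four_two, div_pow]
    have h3 : ((2 : ℝ) ^ n) ^ 2 ≤ len k ^ 2 := pow_le_pow_left₀ h2n.le hk 2
    have h4 : ((2 : ℝ) ^ n) ^ 2 / len k ^ 2 ≤ 1 := by
      rw [div_le_one (by positivity)]
      exact h3
    calc ((2 : ℝ) ^ n) ^ 2 / len k ^ 2 * un v k ^ 2 * (2 ^ n) ^ 2 ≤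
        1 * un v k ^ 2 * len k ^ 2 := by gcongr
      _ = _ := by ring

theorem gam_one (hv : SPV v) {C : ℝ} (hC : 0 ≤ C) (h : Hn 1 0 v ≤ C) (n : ℕ) :
    √(XX n 1 0 v) + √(ZZ n 0 0 v) ≤ 2 * C / 2 ^ n := by
  have h2n : (0 : ℝ) < 2 ^ n := by positivity
  have h1 : EE 1 v ≤ C ^ 2 := by
    rw [EE1_eq]
    exact pow_le_pow_left₀ (Hn_nonneg _ _ _) h 2
  have h2 : √(EE 1 v / 4 ^ n) ≤ C / 2 ^ n := by
    apply Real.sqrt_le_iff.2
    refine ⟨by positivity, ?_⟩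
    rw [div_pow, ← four_two]
    gcongr
  have h3 := (Real.sqrt_le_sqrt (XX_one hv n)).trans h2
  have h4 := (Real.sqrt_le_sqrt (ZZ_one hv n)).trans h2
  have h5 : 2 * C / 2 ^ n = C / 2 ^ n + C / 2 ^ n := by ring
  rw [h5]
  exact add_le_add h3 h4

theorem card_Bl3 (n : ℕ) : ((Bl n).card : ℝ) ≤ (2 * 2 ^ n) ^ 3 := by
  have h1 : Bl n ⊆ Fintype.piFinset fun _ : Fin 3 => Finset.Ioo (-(2 ^ n : ℤ)) (2 ^ n) := by
    intro k hk
    rw [mem_Bl] at hk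
    rw [Fintype.mem_piFinset]
    intro j
    have h3 := (abs_le_len k j).trans_lt hk
    rw [abs_lt] at h3
    rw [Finset.mem_Ioo]
    constructor
    · exact_mod_cast h3.1
    · exact_mod_cast h3.2
  have h2 := Finset.card_le_card h1
  rw [Fintype.card_piFinset, Finset.prod_const, Finset.card_univ, Fintype.card_fin,
    Int.card_Ioo] at h2
  have h3 : ((2 ^ n : ℤ) - -(2 ^ n : ℤ) - 1).toNat ≤ 2 * 2 ^ n := by
    have : (0 : ℤ) < 2 ^ n := by positivity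
    have h3 : (((2 ^ n : ℤ) - -(2 ^ n : ℤ) - 1).toNat : ℤ) ≤ ((2 * 2 ^ n : ℕ) : ℤ) := by
      rw [Int.toNat_of_nonneg (by linarith)]
      push_cast
      linarith
    exact_mod_cast h3
  have h4 := h2.trans (Nat.pow_le_pow_left h3 3)
  calc ((Bl n).card : ℝ) ≤ (((2 * 2 ^ n) ^ 3 : ℕ) : ℝ) := by exact_mod_cast h4
    _ = _ := by push_cast; ring

theorem S1_step (hv : SPV v) {C : ℝ} (hC : 0 ≤ C) (h : Hn 1 0 v ≤ C) (n : ℕ) :
    S1 (n + 1) v ≤ S1 n v + 8 * C * (3 / 2) ^ n := by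
  classical
  have h2n : (0 : ℝ) < 2 ^ n := by positivity
  have h1 : EE 1 v ≤ C ^ 2 := by
    rw [EE1_eq]
    exact pow_le_pow_left₀ (Hn_nonneg _ _ _) h 2
  have hsub : Bl n ⊆ Bl (n + 1) := fun k hk => Bl_sub hk
  have e1 : S1 (n + 1) v = ∑ k ∈ Bl (n + 1) \ Bl n, un v k + S1 n v :=
    (Finset.sum_sdiff hsub).symm
  have h3 : ∑ k ∈ Bl (n + 1) \ Bl n, un v k ^ 2 ≤ C ^ 2 / 4 ^ n := by
    rw [le_div_iff₀ (by positivity), Finset.sum_mul]
    refine le_trans (Finset.sum_le_sum fun k hk => ?_)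
      ((sum_le_EE1 hv (Bl (n + 1) \ Bl n)).trans h1)
    rw [Finset.mem_sdiff, mem_Bl, mem_Bl, not_lt] at hk
    rw [four_two, mul_comm]
    exact mul_le_mul_of_nonneg_right (pow_le_pow_left₀ h2n.le hk.2 2) (sq_nonneg _)
  have h4 : ((Bl (n + 1) \ Bl n).card : ℝ) ≤ 64 * 8 ^ n := by
    have h5 : ((Bl (n + 1) \ Bl n).card : ℝ) ≤ ((Bl (n + 1)).card : ℝ) := by
      exact_mod_cast Finset.card_le_card Finset.sdiff_subset
    refine (h5.trans (card_Bl3 (n + 1))).trans (le_of_eq ?_)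
    have : (8 : ℝ) ^ n = (2 ^ n) ^ 3 := by
      rw [← pow_mul, mul_comm n 3, pow_mul]
      norm_num
    rw [this, pow_succ]
    ring
  have h5 : ∑ k ∈ Bl (n + 1) \ Bl n, un v k ≤ 8 * C * (3 / 2) ^ n := by
    apply le_of_sq_le_sq _ (by positivity)
    refine (sq_sum_le_card_mul_sum_sq (s := Bl (n + 1) \ Bl n) (f := fun k => un v k)).trans ?_
    calc ((Bl (n + 1) \ Bl n).card : ℝ) * ∑ k ∈ Bl (n + 1) \ Bl n, un v k ^ 2 ≤
        (64 * 8 ^ n) * (C ^ 2 / 4 ^ n) :=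
          mul_le_mul h4 h3 (Finset.sum_nonneg fun k _ => sq_nonneg _) (by positivity)
      _ = 64 * C ^ 2 * 2 ^ n := by
          have : (8 : ℝ) ^ n = 2 ^ n * 4 ^ n := by
            rw [← mul_pow]
            norm_num
          rw [this]
          field_simp
      _ ≤ 64 * C ^ 2 * (9 / 4) ^ n := by
          have : (2 : ℝ) ^ n ≤ (9 / 4) ^ n := pow_le_pow_left₀ (by norm_num) (by norm_num) n
          exact mul_le_mul_of_nonneg_left this (by positivity)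
      _ = (8 * C * (3 / 2) ^ n) ^ 2 := by
          have : ((9 : ℝ) / 4) ^ n = ((3 / 2) ^ n) ^ 2 := by
            rw [← pow_mul, mul_comm n 2, pow_mul]
            norm_num
          rw [this]
          ring
  rw [e1]
  linarith

theorem S1_bd (hv : SPV v) {C e : ℝ} (hC : 0 ≤ C) (h : Hn 1 0 v ≤ C) (he0 : 0 ≤ e)
    (he : √(EE 0 v) ≤ e) (n : ℕ) : S1 n v ≤ (16 * C + e) * (3 / 2) ^ n := by
  induction n with
  | zero =>
    have h1 : Bl 0 ⊆ {0} := by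
      intro k hk
      rw [mem_Bl, pow_zero] at hk
      rw [Finset.mem_singleton]
      by_contra hk0
      exact absurd (one_le_len hk0) (not_le.2 hk)
    have h2 : S1 0 v ≤ ∑ k ∈ ({0} : Finset K3), un v k :=
      Finset.sum_le_sum_of_subset_of_nonneg h1 fun k _ _ => un_nonneg _ _
    rw [Finset.sum_singleton] at h2
    have h3 : un v 0 ≤ √(EE 0 v) := by
      apply Real.le_sqrt_of_sq_le
      have := sum_le_EE hv {0}
      rwa [Finset.sum_singleton] at this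
    rw [pow_zero, mul_one]
    linarith
  | succ n ih =>
    have h1 := S1_step hv hC h n
    have h2 : (0 : ℝ) < (3 / 2) ^ n := by positivity
    rw [pow_succ]
    nlinarith [mul_nonneg he0 h2.le]

theorem S1_quot (hv : SPV v) {C e : ℝ} (hC : 0 ≤ C) (h : Hn 1 0 v ≤ C) (he0 : 0 ≤ e)
    (he : √(EE 0 v) ≤ e) (n : ℕ) : S1 n v / 2 ^ n ≤ (16 * C + e) * (3 / 4) ^ n := by
  rw [div_le_iff₀ (by positivity), mul_assoc, ← mul_pow]
  have := S1_bd hv hC h he0 he n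
  norm_num at this ⊢
  exact this

theorem tend_LL (p : ℝ) : Tendsto (fun n : ℕ => LL n ^ p / 2 ^ n) atTop (𝓝 0) := by
  obtain ⟨k, hk⟩ := exists_nat_ge p
  have h1 : ∀ n : ℕ, LL n ^ p / 2 ^ n ≤ 4 * (((n + 2 : ℕ) : ℝ) ^ k / 2 ^ (n + 2)) := by
    intro n
    have h2 := one_le_LL n
    have h3 := LL_le n
    have h4 : LL n ^ p ≤ ((n + 2 : ℕ) : ℝ) ^ k := by
      calc LL n ^ p ≤ LL n ^ (k : ℝ) := Real.rpow_le_rpow_of_exponent_le h2 hk
        _ = LL n ^ k := Real.rpow_natCast _ _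
        _ ≤ _ := by
            apply pow_le_pow_left₀ (by linarith)
            push_cast
            exact h3
    have h5 : 4 * (((n + 2 : ℕ) : ℝ) ^ k / 2 ^ (n + 2)) = ((n + 2 : ℕ) : ℝ) ^ k / 2 ^ n := by
      rw [pow_add]
      field_simp
      norm_num
    rw [h5]
    gcongr
  have h2 : Tendsto (fun n : ℕ => ((n : ℝ)) ^ k / 2 ^ n) atTop (𝓝 0) :=
    tendsto_pow_const_div_const_pow_of_one_lt k (by norm_num)
  have h3 := (h2.comp (tendsto_add_atTop_nat 2)).const_mul 4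
  rw [mul_zero] at h3
  refine squeeze_zero (fun n => ?_) h1 h3
  have := one_le_LL n
  have h4 : 0 ≤ LL n ^ p := Real.rpow_nonneg (by linarith) _
  positivity

variable {ν T p δ : ℝ} {u : ℝ → V → V} {q : ℝ → V → ℝ} {K : (V → V) → (V → V) → V → V}

/-- all the weighted energies are bounded -/
theorem YY_bddE (hK : LowE 2 p δ K) (hp0 : 0 ≤ p) (hδ : 0 ≤ δ) (hν : 0 < ν)
    (hT : 0 < T) (hs : SolK ν T K u q) {C : ℝ} (hC0 : 0 ≤ C)
    (hC : ∀ t ∈ Ico 0 T, Hn 1 0 (u t) ≤ C) (s : ℕ) :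
    ∃ B, 0 ≤ B ∧ ∀ t ∈ Ico 0 T, ∀ m, YY (fun n : ℕ => ((4 : ℝ) ^ s) ^ n) m 0 (u t) ≤ B := by
  have hπ : 0 < ν * (2 * Real.pi) ^ 2 := by
    have := Real.pi_pos
    positivity
  set e := √(EE 0 (u 0)) with he
  have he0 : 0 ≤ e := Real.sqrt_nonneg _
  have hL0 : ∀ n, 0 ≤ LL n ^ p := fun n => Real.rpow_nonneg (by linarith [one_le_LL n]) _
  have hlim : Tendsto (fun n : ℕ => (2 * (4 ^ (s + 1) + 2)) *
      (δ * 5 ^ (2 * (s + 1) + 6) * C * (LL n ^ p / 2 ^ n) +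
        100 * 4 ^ (s + 1) * (16 * C + e) * (3 / 4) ^ n)) atTop (𝓝 0) := by
    have h1 := (tend_LL p).const_mul (δ * 5 ^ (2 * (s + 1) + 6) * C)
    have h2 := (tendsto_pow_atTop_nhds_zero_of_lt_one (r := (3 / 4 : ℝ)) (by norm_num)
      (by norm_num)).const_mul (100 * 4 ^ (s + 1) * (16 * C + e))
    have h3 := (h1.add h2).const_mul (2 * (4 ^ (s + 1) + 2))
    simpa using h3
  obtain ⟨n₀, hn₀⟩ := ev_le (hlim.comp (tendsto_add_atTop_nat 1))
    (c := 2 * ν * (2 * Real.pi) ^ 2) (by linarith)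
  refine prop_wE (wg3 s) hK hν.le hT hs
    (a := fun n => δ * 5 ^ (2 * (s + 1) + 6) * LL (n + 1) ^ p * (2 * C / 2 ^ (n + 1)) / 2
      + 100 * 4 ^ (s + 1) * ((16 * C + e) * (3 / 4) ^ (n + 1)))
    (fun n => by have := hL0 (n + 1); positivity)
    (fun t ht n => flux_totE hK hp0 hδ (sol_spv hs (Ioo_subset_Ico_self ht))
      (hs.divfree t (Ioo_subset_Ico_self ht)) n (s + 1)
      (gam_one (sol_spv hs (Ioo_subset_Ico_self ht)) hC0 (hC t (Ioo_subset_Ico_self ht)) (n + 1))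
      (S1_quot (sol_spv hs (Ioo_subset_Ico_self ht)) hC0 (hC t (Ioo_subset_Ico_self ht)) he0
        (Real.sqrt_le_sqrt (EE_leE hν.le hK hs (Ioo_subset_Ico_self ht))) (n + 1)))
    (n₀ := n₀) fun n hn => ?_
  have h1 := hn₀ n hn
  have h2 := hL0 (n + 1)
  have h4 : ((4 : ℝ) ^ s) ^ (n + 1) - (4 ^ s) ^ n ≤ (4 ^ s) ^ (n + 1) := by
    have : (0 : ℝ) < (4 ^ s) ^ n := by positivity
    linarith
  have h5 : (0 : ℝ) < (4 ^ s) ^ (n + 1) := by positivity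
  calc (((4 : ℝ) ^ s) ^ (n + 1) - (4 ^ s) ^ n)
        * (2 * (δ * 5 ^ (2 * (s + 1) + 6) * LL (n + 1) ^ p * (2 * C / 2 ^ (n + 1)) / 2
          + 100 * 4 ^ (s + 1) * ((16 * C + e) * (3 / 4) ^ (n + 1)))) * (4 ^ (s + 1) + 2)
      = (((4 : ℝ) ^ s) ^ (n + 1) - (4 ^ s) ^ n) * ((2 * (4 ^ (s + 1) + 2)) *
        (δ * 5 ^ (2 * (s + 1) + 6) * C * (LL (n + 1) ^ p / 2 ^ (n + 1)) +
          100 * 4 ^ (s + 1) * (16 * C + e) * (3 / 4) ^ (n + 1))) := by ring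
    _ ≤ (4 ^ s) ^ (n + 1) * ((2 * (4 ^ (s + 1) + 2)) *
        (δ * 5 ^ (2 * (s + 1) + 6) * C * (LL (n + 1) ^ p / 2 ^ (n + 1)) +
          100 * 4 ^ (s + 1) * (16 * C + e) * (3 / 4) ^ (n + 1))) :=
        mul_le_mul_of_nonneg_right h4 (by positivity)
    _ ≤ (4 ^ s) ^ (n + 1) * (2 * ν * (2 * Real.pi) ^ 2) :=
        mul_le_mul_of_nonneg_left h1 h5.le
    _ = _ := by ring

/-- enlarging the constant -/
theorem low_abs (hK : LowE 2 p δ K) : LowE 2 p |δ| K :=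
  { hK with
    bound := fun u v w hu hv hw s₁ s₂ s₃ a₁ a₂ a₃ hs h1 h2 h3 h4 =>
      (hK.bound u v w hu hv hw s₁ s₂ s₃ a₁ a₂ a₃ hs h1 h2 h3 h4).trans
        (mul_le_mul_of_nonneg_right (mul_le_mul_of_nonneg_right (le_abs_self δ) (by positivity))
          (mul_nonneg (mul_nonneg (Hn_nonneg _ _ _) (Hn_nonneg _ _ _)) (Hn_nonneg _ _ _))) }

/-- NSP/BOOT -/
theorem boot : Pool.Agent.N977.P.S_BOOT := by
  intro p δ ν T K u q hp hν hK hs hC s
  rcases le_or_gt T 0 with hT | hT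
  · exact ⟨0, fun t ht => absurd (ht.1.trans_lt ht.2) (not_lt.2 hT)⟩
  obtain ⟨C, hC⟩ := hC
  have hC0 : 0 ≤ C := (Hn_nonneg _ _ _).trans (hC 0 ⟨le_rfl, hT⟩)
  obtain ⟨B, _, hB⟩ := YY_bddE (low_abs hK) hp (abs_nonneg δ) hν hT hs hC0 hC ⌈s⌉₊
  refine ⟨√(4 ^ ⌈s⌉₊ * B), fun t ht => ?_⟩
  exact (Hn_mono (Nat.le_ceil s) (sol_spv hs ht)).trans (Hn_of_YY (sol_spv hs ht) (hB t ht))

end Pool.Agent.N655.NSP
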